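import Pool.Agent.W533.PP.Stm

/-!
Part FIN of project PP.
-/

set_option autoImplicit false

namespace Pool.Agent.W21.PP

open Pool.Agent.W533.PP

theorem pat {n : ℕ} (e : Fin n → Fin n) :
    ((∀ i : Fin n, (e i).val ≤ i.val) ∧
        ∀ i j k : Fin n, i < j → j < k →
          ¬ (e i = e k ∧ e j < e i) ∧ ¬ (e j < e k ∧ e k < e i)) ↔
      Pool.Agent.W533.PP.Inv (fun i => (e i).val) := by
  unfold Pool.Agent.W533.PP.Inv
  refine and_congr Iff.rfl ?_
  refine forall_congr' fun i => forall_congr' fun j => forall_congr' fun k => ?_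
  refine imp_congr Iff.rfl (imp_congr Iff.rfl ?_)
  simp only [Fin.lt_def, Fin.ext_iff]
  omega

/-- FIN -/
theorem fin (h1 : PEQ) (h2 : PCOUNT) (h3 : ICOUNT) : FIN := by
  intro n
  cases n with
  | zero =>
    haveI : Nonempty {σ : Equiv.Perm (Fin 0) //
        ∀ i j k l : Fin 0, i < j → j < k → k < l →
          σ j < σ i → σ i < σ l → σ l < σ k →
          ∃ m : Fin 0, j < m ∧ m < k ∧ σ i < σ m ∧ σ m < σ l} := ⟨⟨1, fun i => i.elim0⟩⟩
    haveI : Nonempty {e : Fin 0 → Fin 0 //
        (∀ i : Fin 0, (e i).val ≤ i.val) ∧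
        ∀ i j k : Fin 0, i < j → j < k →
          ¬ (e i = e k ∧ e j < e i) ∧ ¬ (e j < e k ∧ e k < e i)} :=
      ⟨⟨fun i => i.elim0, fun i => i.elim0, fun i => i.elim0⟩⟩
    rw [Nat.card_unique, Nat.card_unique]
  | succ n =>
    have e1 : Nat.card {σ : Equiv.Perm (Fin (n+1)) //
        ∀ i j k l : Fin (n+1), i < j → j < k → k < l →
          σ j < σ i → σ i < σ l → σ l < σ k →
          ∃ m : Fin (n+1), j < m ∧ m < k ∧ σ i < σ m ∧ σ m < σ l} = T n 1 1 := by
      rw [Nat.card_congr (Equiv.subtypeEquivRight (h1 (n+1)))]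
      classical
      rw [Nat.card_eq_fintype_card, Fintype.card_subtype]
      convert h2 n
    have e2 : Nat.card {e : Fin (n+1) → Fin (n+1) //
        (∀ i : Fin (n+1), (e i).val ≤ i.val) ∧
        ∀ i j k : Fin (n+1), i < j → j < k →
          ¬ (e i = e k ∧ e j < e i) ∧ ¬ (e j < e k ∧ e k < e i)} = T n 1 1 := by
      rw [← h3 n]
      refine Nat.card_congr
        { toFun := fun e => ⟨fun i => (e.1 i).val, (pat e.1).1 e.2⟩
          invFun := fun e => ⟨fun i => ⟨e.1 i, lt_of_le_of_lt (e.2.1 i) i.2⟩,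
            (pat _).2 e.2⟩
          left_inv := fun e => by
            apply Subtype.ext
            rfl
          right_inv := fun e => by
            apply Subtype.ext
            rfl }
    rw [e1, e2]

end Pool.Agent.W21.PP
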